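import Mathlib
import Pool.Agent.H.MP_556855_lc.B

set_option autoImplicit false

namespace Pool.Agent.Results.MP_a1c723_lc.Luzin

open Set Cardinal Pool.Agent.H.MP_556855_lc

theorem result :
    (aleph 1 < dd → ∃ A : Set (Set ℕ), AD A ∧ #A = aleph 1 ∧ StarR (psi A)) ∧
    (covM = aleph 1 → aleph 1 < dd → ∃ (κ : Cardinal) (A : Set (Set ℕ)),
      AD A ∧ #A = κ ∧ covM ≤ κ ∧ cofc κ = κ ∧ StarR (psi A)) := by
  refine ⟨sr, fun h1 h2 => ?_⟩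
  obtain ⟨A, a1, a2, a3⟩ := sr h2
  exact ⟨_, A, a1, a2, h1.le, cof1, a3⟩

end Pool.Agent.Results.MP_a1c723_lc.Luzin
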